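import Pool.Agent.U143.ST.Tow

/-!
# Sato-Tate sums and the Frobenius elements of alternating towers: the averages
-/

set_option autoImplicit false
set_option linter.unusedSectionVars false

namespace Pool.Agent.U143.ST

open Complex Filter Topology ComplexConjugate NumberField IsDedekindDomain
  Pool.Agent.W401.Cheb Pool.Agent.W540.BE Pool.Agent.W353.L1 Pool.Agent.W353.AT
  Pool.Agent.TH526.DS Pool.Agent.U143.AR
open Pool.Agent.TH553.ST (mn mn_sum mn_mul)
open scoped Kronecker

section

variable {K : Type} [Field K] [NumberField K] {d : ℕ}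
  {M F : IntermediateField K (AlgebraicClosure K)} [NumberField M] [NumberField F]

open Classical in
/-- class functions with sums `0` over the cosets are orthogonal to the characters that are constant on
the cosets -/
theorem pr_zero_of_const {G : Type} [Group G] [Fintype G] {f χ : G → ℂ} (N : Subgroup G)
    (hχ : ∀ x, ∀ n ∈ N, χ (x * n) = χ x) (hf : ∀ g x : G, f (x * g * x⁻¹) = f g)
    (h : ∀ g, ∑ x : G, (if x ∈ N then (1 : ℂ) else 0) * f (g * x) = 0) :
    Pool.Agent.W446.AS.pr f χ = 0 := by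
  have h1 := pr_zero_of_mean N hχ hf h
  rw [Pool.Agent.W446.AS.pr_eq] at h1 ⊢
  rw [← h1]
  congr 1
  rw [← Equiv.sum_comp (Equiv.inv G)]
  refine Finset.sum_congr rfl fun g _ => ?_
  simp only [Equiv.inv_apply, inv_inv]
  ring

/-- **The averages of the new class functions.** -/
theorem averages {W : HeightOneSpectrum (𝓞 K) → Matrix (Fin d) (Fin d) ℂ}
    (hW : ∀ v, W v ∈ Matrix.unitaryGroup (Fin d) ℂ)
    (γ : HeightOneSpectrum (𝓞 K) → GK K) [F.fixingSubgroup.Normal]
    [Finite (GK K ⧸ F.fixingSubgroup)]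
    (hcont : ∀ (τ : ℝ) (n : ℕ) (χ : Representation ℂ (GK K) (Fin n → ℂ)), IsNew M F χ →
      ∃ Λ, Cn W (mx χ γ) τ Λ ∧ meromorphicOrderAt Λ (1 + τ * I) = 0)
    (f : GK K ⧸ F.fixingSubgroup → ℂ) (hf : ∀ g x, f (x * g * x⁻¹) = f g)
    (hz : ∀ [Fintype (GK K ⧸ F.fixingSubgroup)]
      [DecidablePred (· ∈ M.fixingSubgroup.map (QuotientGroup.mk' F.fixingSubgroup))],
      ∀ g, ∑ x : GK K ⧸ F.fixingSubgroup,
      (if x ∈ M.fixingSubgroup.map (QuotientGroup.mk' F.fixingSubgroup) then (1 : ℂ) else 0) *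
        f (g * x) = 0) :
    Tendsto (mn fun v => (W v).trace * f (QuotientGroup.mk (γ v))) atTop (𝓝 0) := by
  classical
  let _ : Fintype (GK K ⧸ F.fixingSubgroup) := Fintype.ofFinite _
  have hcoef : ∀ χ ∈ Pool.Agent.H541R3.ART.irrF (GK K ⧸ F.fixingSubgroup),
      Tendsto (mn fun v => Pool.Agent.W446.AS.pr f χ *
        ((W v).trace * χ (QuotientGroup.mk (γ v)))) atTop (𝓝 0) := by
    intro χ hχ
    obtain ⟨n, r, hr, rfl⟩ := Pool.Agent.H541R3.ART.mem_irrF.1 hχ
    let y : MRep (GK K) := infl F.fixingSubgroup ⟨n, r⟩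
    have hyi : y.2.IsIrreducible := infl_irr F.fixingSubgroup ⟨n, r⟩ hr
    have hyU : ∀ u ∈ F.fixingSubgroup, y.2 u = 1 := infl_triv F.fixingSubgroup ⟨n, r⟩
    by_cases hnew : ∃ a ∈ M.fixingSubgroup, y.2 a ≠ 1
    · obtain ⟨S, hS, hSV⟩ := exists_S F.fixingSubgroup y.2 hyU
      have h1 := avg_LK hW hS (hSV γ) (fun τ => by
        obtain ⟨Λ, h2, h3⟩ := hcont τ n y.2 ⟨hyi, hyU, hnew⟩
        exact ⟨Λ, h2, h3⟩)
      have h2 := h1.const_mul (Pool.Agent.W446.AS.pr f r.character)
      rw [mul_zero] at h2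
      refine h2.congr fun N => ?_
      rw [← mn_mul]
      congr 1
      funext v
      rw [trace_mx]
      rfl
    · push Not at hnew
      have h0 : Pool.Agent.W446.AS.pr f r.character = 0 := by
        refine pr_zero_of_const (M.fixingSubgroup.map (QuotientGroup.mk' F.fixingSubgroup))
          ?_ hf ?_
        · rintro x _ ⟨a, ha, rfl⟩
          have h4 : r (QuotientGroup.mk' F.fixingSubgroup a) = 1 := hnew a ha
          unfold Representation.character
          rw [map_mul, h4, mul_one]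
        · intro g
          have h5 := hz g
          convert h5
      rw [h0]
      have e : (mn fun v : HeightOneSpectrum (𝓞 K) =>
          (0 : ℂ) * ((W v).trace * r.character (QuotientGroup.mk (γ v)))) = fun _ => 0 := by
        funext N
        rw [mn_mul, zero_mul]
      rw [e]
      exact tendsto_const_nhds
  have h1 := tendsto_finsetSum (Pool.Agent.H541R3.ART.irrF (GK K ⧸ F.fixingSubgroup)) hcoef
  rw [Finset.sum_const_zero] at h1
  refine h1.congr fun N => ?_
  rw [← mn_sum]
  congr 1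
  funext v
  rw [Pool.Agent.R389.class_expand hf, Finset.mul_sum]
  exact Finset.sum_congr rfl fun χ _ => by ring

end

end Pool.Agent.U143.ST
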