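import Pool.Agent.U143.ST.Uni
import Pool.Agent.U143.AR.Main
import Pool.Agent.TH553.ST.Joint

/-!
# Sato-Tate sums and the Frobenius elements of alternating towers
-/

set_option autoImplicit false
set_option linter.unusedSectionVars false

namespace Pool.Agent.U143.ST

open Complex Filter Topology ComplexConjugate NumberField IsDedekindDomain
  Pool.Agent.W401.Cheb Pool.Agent.W540.BE Pool.Agent.W353.L1 Pool.Agent.W353.AT
  Pool.Agent.TH526.DS Pool.Agent.U143.AR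
open Pool.Agent.H341R2 (lam)
open scoped Kronecker

section

variable {K : Type} [Field K] [NumberField K] {m : ℕ}

/-- a local continuation of the Euler product -/
def Cn (W : HeightOneSpectrum (𝓞 K) → Matrix (Fin m) (Fin m) ℂ) {n : ℕ}
    (V : HeightOneSpectrum (𝓞 K) → Matrix (Fin n) (Fin n) ℂ) (τ : ℝ) (Λ : ℂ → ℂ) : Prop :=
  MeromorphicAt Λ (1 + τ * I) ∧
    ∀ᶠ s in 𝓝 ((1 : ℂ) + τ * I), (1 : ℝ) < s.re → Λ s = LK W V s

/-- the matrix of a representation -/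
noncomputable def mx {n : ℕ} (χ : Representation ℂ (GK K) (Fin n → ℂ))
    (γ : HeightOneSpectrum (𝓞 K) → GK K) (v : HeightOneSpectrum (𝓞 K)) :
    Matrix (Fin n) (Fin n) ℂ := LinearMap.toMatrix' (χ (γ v))

theorem trace_mx {n : ℕ} (χ : Representation ℂ (GK K) (Fin n → ℂ))
    (γ : HeightOneSpectrum (𝓞 K) → GK K) (v : HeightOneSpectrum (𝓞 K)) :
    (mx χ γ v).trace = χ.character (γ v) := by
  unfold mx Representation.character
  rw [← Matrix.trace_toLin'_eq, Matrix.toLin'_toMatrix']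

theorem exists_S (U : Subgroup (GK K)) [U.Normal] [Finite (GK K ⧸ U)] {n : ℕ}
    (χ : Representation ℂ (GK K) (Fin n → ℂ)) (h : ∀ u ∈ U, χ u = 1) :
    ∃ S : Matrix (Fin n) (Fin n) ℂ, IsUnit S ∧ ∀ (γ : HeightOneSpectrum (𝓞 K) → GK K) v,
      S * mx χ γ v * S⁻¹ ∈ Matrix.unitaryGroup (Fin n) ℂ := by
  let R : GK K ⧸ U →* Matrix (Fin n) (Fin n) ℂ :=
    ((LinearMap.toMatrixAlgEquiv' : ((Fin n → ℂ) →ₗ[ℂ] Fin n → ℂ) ≃ₐ[ℂ]
      Matrix (Fin n) (Fin n) ℂ) : _ →* _).comp (qrep U χ h)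
  obtain ⟨S, h1, h2⟩ := unitarize R
  refine ⟨S, h1, fun γ v => ?_⟩
  exact h2 (QuotientGroup.mk (γ v))

variable {M F : IntermediateField K (AlgebraicClosure K)} [NumberField M] [NumberField F]

/-- **The orders of the new twists.** -/
theorem orders (d : ℕ) : ∃ m₀ : ℕ, ∀ (K : Type) [Field K] [NumberField K]
    (W : HeightOneSpectrum (𝓞 K) → Matrix (Fin d) (Fin d) ℂ)
    (_ : ∀ v, W v ∈ Matrix.unitaryGroup (Fin d) ℂ) (_ : ∀ v, conj (W v).trace = (W v).trace)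
    (γ : HeightOneSpectrum (𝓞 K) → GK K) (_ : ∀ v, IsFrob v (γ v)⁻¹)
    (M F : IntermediateField K (AlgebraicClosure K)) [NumberField M] [NumberField F]
    (_ : IsGalois K M) (_ : IsGalois K F) (_ : IsAlternatingTower m₀ M F) (τ : ℝ)
    (_ : ∀ (n : ℕ) (χ : Representation ℂ (GK K) (Fin n → ℂ)), IsNew M F χ →
      ∃ Λ, Cn W (mx χ γ) τ Λ) (n : ℕ) (χ : Representation ℂ (GK K) (Fin n → ℂ)),
    IsNew M F χ → ∀ Λ, Cn W (mx χ γ) τ Λ → meromorphicOrderAt Λ (1 + τ * I) = 0 := by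
  classical
  obtain ⟨m₀, hm₀⟩ := tower_const (2 * d : ℝ)
  refine ⟨m₀, fun K _ _ W hW hreal γ hγ M F _ _ hM hF hMF τ hex n χ hχ Λ hΛ => ?_⟩
  set T : HeightOneSpectrum (𝓞 K) → ℝ := fun v => (W v).trace.re with hTd
  have hTc : ∀ v, ((T v : ℝ) : ℂ) = (W v).trace := fun v => by
    rw [hTd]
    exact (Complex.conj_eq_iff_re.1 (hreal v))
  have hT : ∀ v, |T v| ≤ (d : ℝ) := fun v => by
    refine (Complex.abs_re_le_norm _).trans ?_
    have := Pool.Agent.TH553.ST.norm_chi (n := d)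
      (Subgroup.subtype (⊤ : Subgroup (Matrix.unitaryGroup (Fin d) ℂ)) ) ⟨⟨W v, hW v⟩, trivial⟩
    exact this
  set σ : HeightOneSpectrum (𝓞 K) → GK K := fun v => (γ v)⁻¹ with hσd
  have hσ : ∀ v, IsFrob v (σ v) := hγ
  have hs0 : (0 : ℝ) ≤ d := Nat.cast_nonneg _
  obtain ⟨hUo, hUn⟩ := normal_fix F hF
  have hfin : Finite (GK K ⧸ F.fixingSubgroup) := Subgroup.quotient_finite_of_isOpen _ hUo
  have hlimk : ∀ (r : ℕ) (χ : Representation ℂ (GK K) (Fin r → ℂ)),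
      (∀ u ∈ F.fixingSubgroup, χ u = 1) → ∀ Λ, Cn W (mx χ γ) τ Λ →
      ∃ k : ℤ, meromorphicOrderAt Λ (1 + τ * I) = k ∧ Lim T σ ⟨r, χ⟩ τ ((-k : ℤ) : ℝ) := by
    intro r χ hχ Λ hΛ
    obtain ⟨S, hS, hSV⟩ := exists_S F.fixingSubgroup χ hχ
    obtain ⟨k, h1, h2⟩ := order_LK hW hS (hSV γ) hΛ.1 hΛ.2
    refine ⟨k, h1, ?_⟩
    unfold Lim
    refine h2.congr fun ε => ?_
    unfold Pool.Agent.TH553.RS.qt
    congr 2
    funext v
    unfold RR
    have e1 : (σ v)⁻¹ = γ v := inv_inv _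
    rw [e1, trace_mx, ← hTc, mul_assoc, Complex.re_ofReal_mul]
    rfl
  have hAn : (M.fixingSubgroup.map (QuotientGroup.mk' F.fixingSubgroup)).Normal :=
    (normal_fix M hM).2.map _ (QuotientGroup.mk'_surjective _)
  have hnewA : ∀ (r : ℕ) (χ : Representation ℂ (GK K) (Fin r → ℂ)), χ.IsIrreducible →
      ∀ h : ∀ u ∈ F.fixingSubgroup, χ u = 1,
      (∃ a ∈ M.fixingSubgroup.map (QuotientGroup.mk' F.fixingSubgroup),
        (qrep F.fixingSubgroup χ h) a ≠ 1) → IsNew M F χ := by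
    rintro r χ h1 h2 ⟨a, ⟨g, hg, rfl⟩, hane⟩
    exact ⟨h1, h2, g, hg, hane⟩
  obtain ⟨θ, hθ, hb, hpr⟩ := exists_theta hs0 hT hσ F.fixingSubgroup hUo
    (M.fixingSubgroup.map (QuotientGroup.mk' F.fixingSubgroup)) (τ := τ) (fun r χ h1 h2 h3 => by
      obtain ⟨Λ', hΛ'⟩ := hex r χ (hnewA r χ h1 h2 h3)
      obtain ⟨k, -, hk⟩ := hlimk r χ h2 Λ' hΛ'
      exact ⟨-k, hk⟩)
  have hc := hm₀ K M F hM hF hMF θ hθ fun q => (hb q).trans (by
    have := mul_le_mul_of_nonneg_left (heightFactor_le τ) hs0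
    linarith)
  obtain ⟨k, hk1, h0⟩ := hlimk n χ hχ.2.1 Λ hΛ
  obtain ⟨g, hg, hgne⟩ := hχ.2.2
  have h1 := hpr n χ hχ.1 hχ.2.1 ⟨QuotientGroup.mk g, ⟨g, hg, rfl⟩, hgne⟩ _ h0
  rw [pr_new_zero hM hc χ hχ] at h1
  have h2 : (((-k : ℤ) : ℝ)) = 0 := by exact_mod_cast h1.symm
  have h3 : k = 0 := by
    have : (-k : ℤ) = 0 := by exact_mod_cast h2
    omega
  rw [hk1, h3]
  rfl

end

end Pool.Agent.U143.ST
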