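import Pool.Agent.TH553.ST.Taub3
import Pool.Agent.TH553.ST.Unit

/-!
# Euler products of representations of finite groups with unitary matrices
-/

set_option autoImplicit false
set_option linter.unusedSectionVars false

namespace Pool.Agent.U143.ST

open Complex Filter Topology ComplexConjugate NumberField IsDedekindDomain
  Pool.Agent.W540.BE Pool.Agent.TH553.RS Pool.Agent.TH553.ST
open scoped Kronecker Matrix

open scoped MatrixOrder ComplexOrder in
/-- **Weyl's unitary trick for finite groups.** -/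
theorem unitarize {Q : Type*} [Group Q] [Finite Q] {n : ℕ}
    (R : Q →* Matrix (Fin n) (Fin n) ℂ) :
    ∃ S : Matrix (Fin n) (Fin n) ℂ, IsUnit S ∧
      ∀ q, S * R q * S⁻¹ ∈ Matrix.unitaryGroup (Fin n) ℂ := by
  classical
  let _ : Fintype Q := Fintype.ofFinite Q
  set H : Matrix (Fin n) (Fin n) ℂ := ∑ q, (R q)ᴴ * R q with hH
  have hpd : H.PosDef := by
    rw [hH, ← Finset.add_sum_erase _ _ (Finset.mem_univ (1 : Q))]
    have h1 : (R 1)ᴴ * R 1 = (1 : Matrix (Fin n) (Fin n) ℂ) := by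
      rw [map_one, Matrix.conjTranspose_one, one_mul]
    rw [h1]
    exact Matrix.PosDef.one.add_posSemidef (Matrix.posSemidef_sum _ fun q _ =>
      Matrix.posSemidef_conjTranspose_mul_self _)
  obtain ⟨S, hS⟩ := CStarAlgebra.nonneg_iff_eq_star_mul_self.mp hpd.posSemidef.nonneg
  rw [Matrix.star_eq_conjTranspose] at hS
  have hSu : IsUnit S := by
    have h1 := hpd.isUnit
    rw [hS, Matrix.isUnit_iff_isUnit_det, Matrix.det_mul] at h1
    exact (Matrix.isUnit_iff_isUnit_det _).2 (isUnit_of_mul_isUnit_right h1)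
  have hinv : ∀ q, (R q)ᴴ * H * R q = H := by
    intro q
    have h1 : (R q)ᴴ * H * R q = ∑ p, (R (p * q))ᴴ * R (p * q) := by
      rw [hH, Finset.mul_sum, Finset.sum_mul]
      refine Finset.sum_congr rfl fun p _ => ?_
      rw [map_mul, Matrix.conjTranspose_mul]
      simp only [Matrix.mul_assoc]
    rw [h1, hH]
    exact Equiv.sum_comp (Equiv.mulRight q) fun p => (R p)ᴴ * R p
  refine ⟨S, hSu, fun q => ?_⟩
  rw [Matrix.mem_unitaryGroup_iff', Matrix.star_eq_conjTranspose]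
  have hdet : IsUnit S.det := (Matrix.isUnit_iff_isUnit_det _).1 hSu
  have e1 : (S * R q * S⁻¹)ᴴ * (S * R q * S⁻¹) = (S⁻¹)ᴴ * ((R q)ᴴ * (Sᴴ * S) * R q) * S⁻¹ := by
    rw [Matrix.conjTranspose_mul, Matrix.conjTranspose_mul]
    simp only [Matrix.mul_assoc]
  rw [e1, ← hS, hinv, hS]
  have e2 : (S⁻¹)ᴴ * (Sᴴ * S) * S⁻¹ = (S * S⁻¹)ᴴ * (S * S⁻¹) := by
    rw [Matrix.conjTranspose_mul]
    simp only [Matrix.mul_assoc]
  rw [e2, Matrix.mul_nonsing_inv _ hdet, Matrix.conjTranspose_one, one_mul]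

section

variable {K : Type} [Field K] [NumberField K] {m n : ℕ}

/-- the Euler product -/
noncomputable def LK (W : HeightOneSpectrum (𝓞 K) → Matrix (Fin m) (Fin m) ℂ)
    (V : HeightOneSpectrum (𝓞 K) → Matrix (Fin n) (Fin n) ℂ) (s : ℂ) : ℂ :=
  ∏' v, (Matrix.det (1 - (((nm K v : ℕ) : ℂ) ^ (-s)) • (W v ⊗ₖ V v)))⁻¹

variable {W : HeightOneSpectrum (𝓞 K) → Matrix (Fin m) (Fin m) ℂ}
  {V : HeightOneSpectrum (𝓞 K) → Matrix (Fin n) (Fin n) ℂ}

/-- eigenvalues -/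
theorem exists_al' (hW : ∀ v, W v ∈ Matrix.unitaryGroup (Fin m) ℂ)
    {S : Matrix (Fin n) (Fin n) ℂ} (hS : IsUnit S)
    (hV : ∀ v, S * V v * S⁻¹ ∈ Matrix.unitaryGroup (Fin n) ℂ) :
    ∃ α : HeightOneSpectrum (𝓞 K) → Fin (Fintype.card (Fin m × Fin n)) → ℂ,
      (∀ v j, ‖α v j‖ = 1) ∧ (∀ v, ∑ j, α v j = (W v).trace * (V v).trace) ∧
      ∀ v (c : ℂ), Matrix.det (1 - c • (W v ⊗ₖ V v)) = ∏ j, (1 - α v j * c) := by
  have hSd : IsUnit S.det := (Matrix.isUnit_iff_isUnit_det _).1 hS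
  have h : ∀ v, (W v ⊗ₖ (S * V v * S⁻¹)) ∈ Matrix.unitaryGroup (Fin m × Fin n) ℂ :=
    fun v => Matrix.kronecker_mem_unitary (hW v) (hV v)
  choose α h1 h2 h3 using fun v => exists_eig (h v)
  refine ⟨α, h1, fun v => ?_, fun v c => ?_⟩
  · rw [h2, Matrix.trace_kronecker]
    congr 1
    rw [Matrix.trace_mul_comm, ← Matrix.mul_assoc, Matrix.nonsing_inv_mul _ hSd, Matrix.one_mul]
  · rw [← h3]
    have e0 : ((1 : Matrix (Fin m) (Fin m) ℂ) ⊗ₖ S) * (1 ⊗ₖ S⁻¹) = 1 := by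
      rw [← Matrix.mul_kronecker_mul, Matrix.mul_nonsing_inv _ hSd, one_mul,
        Matrix.one_kronecker_one]
    have e1 : (1 : Matrix (Fin m × Fin n) (Fin m × Fin n) ℂ) - c • (W v ⊗ₖ (S * V v * S⁻¹)) =
        (1 ⊗ₖ S) * (1 - c • (W v ⊗ₖ V v)) * (1 ⊗ₖ S⁻¹) := by
      rw [mul_sub, sub_mul, mul_one, e0, mul_smul_comm, smul_mul_assoc, ← Matrix.mul_kronecker_mul,
        ← Matrix.mul_kronecker_mul, one_mul, mul_one]
    rw [e1, Matrix.det_mul, Matrix.det_mul, mul_right_comm, ← Matrix.det_mul, e0, Matrix.det_one,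
      one_mul]

variable (hW : ∀ v, W v ∈ Matrix.unitaryGroup (Fin m) ℂ)
    {S : Matrix (Fin n) (Fin n) ℂ} (hS : IsUnit S)
    (hV : ∀ v, S * V v * S⁻¹ ∈ Matrix.unitaryGroup (Fin n) ℂ)

include hW hS hV

/-- size and correlation -/
theorem size_LK (τ : ℝ) :
    (∀ᶠ ε : ℝ in 𝓝[>] 0, LK W V (1 + τ * I + ε) ≠ 0) ∧
    Tendsto (fun ε : ℝ => qt (nm K) (fun v => ((W v).trace * (V v).trace *
        ((nm K v : ℕ) : ℂ) ^ (-(τ * I : ℂ))).re) ε -
      Real.log ‖LK W V (1 + τ * I + ε)‖ / Real.log (1 / ε)) (𝓝[>] 0) (𝓝 0) := by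
  obtain ⟨α, h1, h2, h3⟩ := exists_al' hW hS hV
  set B : HeightOneSpectrum (𝓞 K) → Polynomial ℂ := fun v =>
    ∏ j, (1 - Polynomial.C (α v j) * Polynomial.X) with hB
  have hBe : ∀ v z, (B v).eval z = ∏ j, (1 - α v j * z) := by
    intro v z
    rw [hB]
    simp [Polynomial.eval_prod]
  exact size_unit (sysF K) α (Filter.Eventually.of_forall h1)
    (t := fun v => (W v).trace * (V v).trace) (C := (Fintype.card (Fin m × Fin n) : ℝ))
    (fun v => by
      rw [← h2]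
      refine (norm_sum_le _ _).trans ?_
      simp only [h1]
      simp)
    (Filter.Eventually.of_forall h2) τ B (Filter.Eventually.of_forall hBe)
    (fun v => by
      rw [hBe, Finset.prod_ne_zero_iff]
      intro j _ h4
      have h5 : ‖α v j * ((nm K v : ℕ) : ℂ) ^ (-(1 + τ * I : ℂ))‖ = 1 := by
        have : α v j * ((nm K v : ℕ) : ℂ) ^ (-(1 + τ * I : ℂ)) = 1 := by linear_combination -h4
        rw [this, norm_one]
      rw [norm_mul, h1, one_mul] at h5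
      have h6 := cpow_le_half normSys v (s := 1 + τ * I) (by simp)
      linarith) (LK W V)
    (fun s _ => by
      unfold LK
      refine tprod_congr fun v => ?_
      rw [h3, hBe])

/-- the order of a continuation and the correlation -/
theorem order_LK {τ : ℝ} {Λ : ℂ → ℂ} (h1 : MeromorphicAt Λ (1 + τ * I))
    (h2 : ∀ᶠ s in 𝓝 ((1 : ℂ) + τ * I), (1 : ℝ) < s.re → Λ s = LK W V s) :
    ∃ k : ℤ, meromorphicOrderAt Λ (1 + τ * I) = k ∧
      Tendsto (fun ε : ℝ => qt (nm K) (fun v => ((W v).trace * (V v).trace *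
        ((nm K v : ℕ) : ℂ) ^ (-(τ * I : ℂ))).re) ε) (𝓝[>] 0) (𝓝 ((-k : ℤ) : ℝ)) := by
  obtain ⟨h3, h4⟩ := size_LK hW hS hV τ
  obtain ⟨k, h5, h6⟩ := order_unit h3 h1 h2
  refine ⟨k, h5, ?_⟩
  have h7 := h4.add h6
  rw [zero_add] at h7
  push_cast
  refine h7.congr fun ε => ?_
  ring

/-- no zeros and poles on the line: the averages -/
theorem avg_LK (hcont : ∀ τ : ℝ, ∃ Λ : ℂ → ℂ, (MeromorphicAt Λ (1 + τ * I) ∧
      ∀ᶠ s in 𝓝 ((1 : ℂ) + τ * I), (1 : ℝ) < s.re → Λ s = LK W V s) ∧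
      meromorphicOrderAt Λ (1 + τ * I) = 0) :
    Tendsto (mn fun v => (W v).trace * (V v).trace) atTop (𝓝 0) := by
  obtain ⟨α, h1, h2, h3⟩ := exists_al' hW hS hV
  have h4 := taub h1 (L := LK W V) (fun s _ => by
    unfold LK
    exact tprod_congr fun v => by rw [h3]) (fun τ => by
    obtain ⟨Λ, ⟨h5, h6⟩, h7⟩ := hcont τ
    have h7' : meromorphicOrderAt Λ (1 + τ * I) = ((0 : ℤ) : WithTop ℤ) := h7
    obtain ⟨g, h10, h11, h12⟩ := (meromorphicOrderAt_eq_int_iff h5).1 h7'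
    refine ⟨g, h10, h11, ?_⟩
    rw [eventually_nhdsWithin_iff] at h12
    filter_upwards [h12, h6] with s h13 h14 h15
    have hne : s ≠ 1 + τ * I := by
      intro h
      rw [h] at h15
      simp at h15
    have h16 := h13 hne
    rw [zpow_zero, one_smul] at h16
    rw [← h16, h14 h15])
  refine h4.congr fun N => ?_
  congr 1
  funext v
  exact h2 v

end

end Pool.Agent.U143.ST
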